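import Pool.Agent.W820.KH.Defs

open Set Filter Topology

namespace Pool.Agent.W501.KHCoef

/-- coefficient sequences -/
abbrev XX : Type := ℕ → Set.Icc (-1 : ℝ) 1

theorem abs_le_one (c : XX) (j : ℕ) : |(c j : ℝ)| ≤ 1 := abs_le.mpr ⟨(c j).2.1, (c j).2.2⟩

theorem summ (a : ℕ → ℝ) (ha : Summable fun j => |a j|) (c : XX) :
    Summable fun j => (c j : ℝ) * a j := by
  refine Summable.of_norm_bounded ha fun j => ?_
  rw [Real.norm_eq_abs, abs_mul]
  have := abs_le_one c j
  nlinarith [abs_nonneg (a j)]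

theorem dense_ne (a : ℕ → ℝ) (ha : Summable fun j => |a j|) (h : ∃ j, a j ≠ 0) :
    Dense {c : XX | ∑' j, (c j : ℝ) * a j ≠ 0} := by
  obtain ⟨j, hj⟩ := h
  rw [dense_iff_inter_open]
  rintro U hU ⟨c, hc⟩
  by_cases h0 : ∑' i, (c i : ℝ) * a i = 0
  swap
  · exact ⟨c, hc, h0⟩
  obtain ⟨y, hy, hyx⟩ : ∃ y : ℝ, y ∈ Set.Icc (-1 : ℝ) 1 ∧ y ≠ (c j : ℝ) := by
    by_cases h1 : (c j : ℝ) ≤ 0
    · exact ⟨1, by norm_num, by intro h2; linarith⟩
    · exact ⟨-1, by norm_num, by intro h2; linarith⟩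
  set x : ℝ := (c j : ℝ) with hx
  let γ : ℝ → XX := fun s => Function.update c j
    (Set.projIcc (-1 : ℝ) 1 (by norm_num) (x + s * (y - x)))
  have hγ : Continuous γ := by
    refine continuous_const.update j ?_
    exact continuous_projIcc.comp (by fun_prop)
  have hmem : ∀ s : ℝ, 0 ≤ s → s ≤ 1 → x + s * (y - x) ∈ Set.Icc (-1 : ℝ) 1 := by
    intro s hs0 hs1
    have h1 := (c j).2.1
    have h2 := (c j).2.2
    constructor <;> nlinarith [hy.1, hy.2]
  have hγ0 : γ 0 = c := by
    have h1 : Set.projIcc (-1 : ℝ) 1 (by norm_num) (x + 0 * (y - x)) = c j := by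
      rw [zero_mul, add_zero]
      exact Set.projIcc_val (by norm_num) (c j)
    simp only [γ, h1, Function.update_eq_self]
  have hev : ∀ᶠ s in 𝓝 (0 : ℝ), γ s ∈ U := by
    have := hγ.continuousAt (x := 0)
    exact this.eventually (by rw [hγ0]; exact hU.mem_nhds hc)
  obtain ⟨ε, hε, hball⟩ := Metric.eventually_nhds_iff.mp hev
  set s : ℝ := min (ε / 2) 1 with hs
  have hs0 : 0 < s := by positivity
  have hs1 : s ≤ 1 := min_le_right _ _
  have hsU : γ s ∈ U := by
    apply hball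
    rw [Real.dist_eq, sub_zero, abs_of_pos hs0]
    have : s ≤ ε / 2 := min_le_left _ _
    linarith
  refine ⟨γ s, hsU, ?_⟩
  have hdiff : (∑' i, ((γ s) i : ℝ) * a i) - ∑' i, (c i : ℝ) * a i = s * (y - x) * a j := by
    rw [← (summ a ha (γ s)).tsum_sub (summ a ha c)]
    rw [tsum_eq_single j]
    · have h1 : ((γ s) j : ℝ) = x + s * (y - x) := by
        simp only [γ, Function.update_self]
        rw [Set.projIcc_of_mem _ (hmem s hs0.le hs1)]
      rw [h1, ← hx]
      ring
    · intro i hi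
      have h1 : (γ s) i = c i := by
        simp only [γ]
        rw [Function.update_of_ne hi]
      rw [h1]
      ring
  show ∑' i, ((γ s) i : ℝ) * a i ≠ 0
  rw [h0, sub_zero] at hdiff
  rw [hdiff]
  exact mul_ne_zero (mul_ne_zero hs0.ne' (sub_ne_zero.mpr hyx)) hj

theorem main : Pool.Agent.W820.KH.S_COEF := by
  intro a ha hne
  have hopen : ∀ m, IsOpen {c : XX | ∑' j, (c j : ℝ) * a m j ≠ 0} := by
    intro m
    have hcont : Continuous fun c : XX => ∑' j, (c j : ℝ) * a m j := by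
      refine continuous_tsum (fun j => ?_) (ha m) fun j c => ?_
      · exact (continuous_subtype_val.comp (continuous_apply j)).mul continuous_const
      · rw [Real.norm_eq_abs, abs_mul]
        have := abs_le_one c j
        nlinarith [abs_nonneg (a m j)]
    exact isOpen_ne_fun hcont continuous_const
  have hd := dense_iInter_of_isOpen_nat hopen fun m => dense_ne (a m) (ha m) (hne m)
  haveI : Nonempty XX := ⟨fun _ => ⟨0, by norm_num⟩⟩
  obtain ⟨c, hc⟩ := hd.nonempty
  refine ⟨fun j => (c j : ℝ), fun j => abs_le_one c j, fun m => ?_⟩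
  exact (Set.mem_iInter.mp hc) m

end Pool.Agent.W501.KHCoef
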