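import Pool.Agent.W820.KH.Defs

open Set Filter Topology
open scoped ContDiff
open Pool.Agent.W820.KH

namespace Pool.Agent.W501.KHCross

theorem inj_of_deriv_ne (g : ℝ → ℝ) (hg : Differentiable ℝ g) (h : ∀ a, deriv g a ≠ 0)
    (a b : ℝ) (hab : g a = g b) : a = b := by
  rcases lt_trichotomy a b with h1 | h1 | h1
  · obtain ⟨x, _, hx⟩ := exists_deriv_eq_zero h1 hg.continuous.continuousOn hab
    exact absurd hx (h x)
  · exact h1
  · obtain ⟨x, _, hx⟩ := exists_deriv_eq_zero h1 hg.continuous.continuousOn hab.symm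
    exact absurd hx (h x)

theorem main : Pool.Agent.W820.KH.S_CROSS := by
  intro φ W J β c hφ h0 hadd hW hWφ hJ hdJ hβ hβc hT
  classical
  have hsm : ContDiff ℝ ∞ (fun p : E × ℝ => J (φ p.2 p.1)) := by
    exact hJ.comp (hφ.comp (contDiff_snd.prodMk contDiff_fst))
  have hcurve : ∀ x, ContDiff ℝ ∞ (fun t : ℝ => J (φ t x)) := by
    intro x
    exact hJ.comp (hφ.comp (contDiff_id.prodMk contDiff_const))
  have hinj : ∀ x ∈ W, ∀ a b, J (φ a x) = J (φ b x) → a = b := by
    intro x hx a b hab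
    exact inj_of_deriv_ne _ ((hcurve x).differentiable (by simp)) (hdJ x hx) a b hab
  let f : E → ℝ := fun x => if h : ∃ a, J (φ a x) = c then β (φ h.choose x) else 0
  have hf1 : ∀ x ∈ W, ∀ a, J (φ a x) = c → f x = β (φ a x) := by
    intro x hx a ha
    have h : ∃ a, J (φ a x) = c := ⟨a, ha⟩
    simp only [f, dif_pos h]
    rw [hinj x hx h.choose a (h.choose_spec.trans ha.symm)]
  have hf2 : ∀ x ∈ W, (∀ a, J (φ a x) ≠ c) → f x = 0 := by
    intro x hx h
    have : ¬ ∃ a, J (φ a x) = c := by push Not; exact h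
    simp only [f, dif_neg this]
  have key : ∀ x0 ∈ W, ∀ a0, J (φ a0 x0) = c → ∃ τ : E → ℝ, ContDiffAt ℝ ∞ τ x0 ∧ τ x0 = a0 ∧
      (f =ᶠ[𝓝 x0] fun x => β (φ (τ x) x)) ∧ ∀ᶠ x in 𝓝 x0, J (φ (τ x) x) = c := by
    intro x0 hx0 a0 ha0
    have cdf : ContDiffAt ℝ ∞ (fun p : E × ℝ => J (φ p.2 p.1)) (x0, a0) := hsm.contDiffAt
    have if2 : (fderiv ℝ (fun p : E × ℝ => J (φ p.2 p.1)) (x0, a0) ∘L
        .inr ℝ E ℝ).IsInvertible := by
      have hd : HasFDerivAt (fun p : E × ℝ => J (φ p.2 p.1))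
          (fderiv ℝ (fun p : E × ℝ => J (φ p.2 p.1)) (x0, a0)) (x0, a0) :=
        (cdf.differentiableAt (by simp)).hasFDerivAt
      have hd2 : HasFDerivAt (fun t : ℝ => J (φ t x0))
          (fderiv ℝ (fun p : E × ℝ => J (φ p.2 p.1)) (x0, a0) ∘L
            ContinuousLinearMap.inr ℝ E ℝ) a0 := by
        have h3 : HasFDerivAt (fun t : ℝ => ((x0, t) : E × ℝ))
            (ContinuousLinearMap.inr ℝ E ℝ) a0 := hasFDerivAt_prodMk_right x0 a0
        exact hd.comp a0 h3
      set A := fderiv ℝ (fun p : E × ℝ => J (φ p.2 p.1)) (x0, a0) ∘L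
            ContinuousLinearMap.inr ℝ E ℝ with hA
      have hA1 : A 1 ≠ 0 := by
        have := hd2.hasDerivAt.deriv
        rw [← this]
        exact hdJ x0 hx0 a0
      refine ⟨ContinuousLinearEquiv.unitsEquivAut ℝ (Units.mk0 (A 1) hA1), ?_⟩
      ext
      simp
    refine ⟨cdf.implicitFunction (by simp) if2, cdf.contDiffAt_implicitFunction (by simp) if2,
      cdf.implicitFunction_apply_self (by simp) if2, ?_, ?_⟩
    · filter_upwards [cdf.eventually_apply_implicitFunction (by simp) if2, hW.mem_nhds hx0]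
        with x hx hxW
      exact hf1 x hxW _ (hx.trans ha0)
    · filter_upwards [cdf.eventually_apply_implicitFunction (by simp) if2] with x hx
      exact hx.trans ha0
  refine ⟨f, ?_, hf1, hf2, ?_⟩
  · intro x0 hx0
    apply ContDiffAt.contDiffWithinAt
    by_cases hex : ∃ a, J (φ a x0) = c
    · obtain ⟨a0, ha0⟩ := hex
      obtain ⟨τ, hτ, _, hfe, _⟩ := key x0 hx0 a0 ha0
      refine ContDiffAt.congr_of_eventuallyEq ?_ hfe
      have h1 : ContDiffAt ℝ ∞ (fun x => ((τ x, x) : ℝ × E)) x0 := hτ.prodMk contDiffAt_id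
      have h2 : ContDiffAt ℝ ∞ (fun x => φ (τ x) x) x0 :=
        ContDiffAt.comp (g := fun p : ℝ × E => φ p.1 p.2) (f := fun x => (τ x, x)) x0
          (hφ.contDiffAt (x := (τ x0, x0))) h1
      exact ContDiffAt.comp (g := β) (f := fun x => φ (τ x) x) x0 hβ.contDiffAt h2
    · push Not at hex
      obtain ⟨N, hN, T, hNT⟩ := hT x0 hx0
      have h1 : ∀ᶠ x in 𝓝 x0, ∀ a ∈ Icc (-T) T, J (φ a x) ≠ c := by
        refine isCompact_Icc.eventually_forall_of_forall_eventually ?_
        intro a _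
        exact hsm.continuous.continuousAt.eventually_ne (hex a)
      have h2 : f =ᶠ[𝓝 x0] fun _ => (0 : ℝ) := by
        filter_upwards [h1, hN, hW.mem_nhds hx0] with x hx hxN hxW
        by_cases h3 : ∃ a, J (φ a x) = c
        · obtain ⟨a, ha⟩ := h3
          rw [hf1 x hxW a ha]
          by_contra h4
          have h5 : φ a x ∈ tsupport β := subset_tsupport β h4
          have h6 := hNT x hxN a h5
          exact hx a (abs_le.mp h6) ha
        · push Not at h3
          exact hf2 x hxW h3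
      exact contDiffAt_const.congr_of_eventuallyEq h2
  · intro y hy hJy w hw
    obtain ⟨τ, hτ, hτ0, hfe, hJe⟩ := key y hy 0 (by rw [h0]; exact hJy)
    have hτd : HasFDerivAt τ (fderiv ℝ τ y) y := (hτ.differentiableAt (by simp)).hasFDerivAt
    have hΦd : HasFDerivAt (fun p : ℝ × E => φ p.1 p.2)
        (fderiv ℝ (fun p : ℝ × E => φ p.1 p.2) (0, y)) (0, y) :=
      (hφ.contDiffAt.differentiableAt (by simp)).hasFDerivAt
    set Φ' := fderiv ℝ (fun p : ℝ × E => φ p.1 p.2) (0, y) with hΦ'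
    set τ' := fderiv ℝ τ y with hτ'
    have hG : HasFDerivAt (fun x => φ (τ x) x) (Φ' ∘L (τ'.prod (ContinuousLinearMap.id ℝ E))) y := by
      have h1 : HasFDerivAt (fun x => ((τ x, x) : ℝ × E))
          (τ'.prod (ContinuousLinearMap.id ℝ E)) y := hτd.prodMk (hasFDerivAt_id y)
      have h2 : HasFDerivAt (fun p : ℝ × E => φ p.1 p.2) Φ' (τ y, y) := by
        rw [hτ0]; exact hΦd
      exact HasFDerivAt.comp (g := fun p : ℝ × E => φ p.1 p.2) (f := fun x => (τ x, x)) y h2 h1
    have hid : ∀ w, Φ' (0, w) = w := by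
      intro w
      have h1 : HasFDerivAt (fun x : E => φ 0 x) (Φ' ∘L ContinuousLinearMap.inr ℝ ℝ E) y := by
        have h3 : HasFDerivAt (fun x : E => ((0, x) : ℝ × E))
            (ContinuousLinearMap.inr ℝ ℝ E) y := hasFDerivAt_prodMk_right 0 y
        exact hΦd.comp y h3
      have h2 : HasFDerivAt (fun x : E => φ 0 x) (ContinuousLinearMap.id ℝ E) y := by
        have : (fun x : E => φ 0 x) = id := by funext x; exact h0 x
        rw [this]
        exact hasFDerivAt_id y
      have h3 := h1.unique h2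
      have h4 := congrArg (fun A : E →L[ℝ] E => A w) h3
      simpa using h4
    have hJd : HasFDerivAt J (fderiv ℝ J y) y :=
      (hJ.contDiffAt.differentiableAt (by simp)).hasFDerivAt
    have hβd : HasFDerivAt β (fderiv ℝ β y) y :=
      (hβ.contDiffAt.differentiableAt (by simp)).hasFDerivAt
    have hGy : φ (τ y) y = y := by rw [hτ0]; exact h0 y
    have hX : fderiv ℝ J y (Φ' (1, 0)) ≠ 0 := by
      have h1 : HasFDerivAt (fun t : ℝ => φ t y) (Φ' ∘L ContinuousLinearMap.inl ℝ ℝ E) 0 := by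
        have h3 : HasFDerivAt (fun t : ℝ => ((t, y) : ℝ × E))
            (ContinuousLinearMap.inl ℝ ℝ E) 0 := hasFDerivAt_prodMk_left 0 y
        exact hΦd.comp (0 : ℝ) h3
      have h2 : HasFDerivAt (fun t : ℝ => J (φ t y))
          (fderiv ℝ J y ∘L (Φ' ∘L ContinuousLinearMap.inl ℝ ℝ E)) 0 := by
        have h3 : HasFDerivAt J (fderiv ℝ J y) (φ 0 y) := by rw [h0]; exact hJd
        exact h3.comp (0 : ℝ) h1
      have h3 := h2.hasDerivAt.deriv
      have h4 := hdJ y hy 0
      rw [h3] at h4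
      simpa using h4
    have hsplit : (Φ' ∘L (τ'.prod (ContinuousLinearMap.id ℝ E))) w
        = τ' w • Φ' (1, 0) + w := by
      have h1 : ((τ' w, w) : ℝ × E) = τ' w • ((1, 0) : ℝ × E) + (0, w) := by
        ext <;> simp
      simp only [ContinuousLinearMap.comp_apply, ContinuousLinearMap.prod_apply,
        ContinuousLinearMap.id_apply]
      rw [h1, map_add, map_smul, hid w]
    have hJG : HasFDerivAt (fun x => J (φ (τ x) x))
        (fderiv ℝ J y ∘L (Φ' ∘L (τ'.prod (ContinuousLinearMap.id ℝ E)))) y := by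
      have h3 : HasFDerivAt J (fderiv ℝ J y) (φ (τ y) y) := by rw [hGy]; exact hJd
      exact HasFDerivAt.comp (g := J) (f := fun x => φ (τ x) x) y h3 hG
    have hJG0 : HasFDerivAt (fun x => J (φ (τ x) x)) (0 : E →L[ℝ] ℝ) y := by
      have h1 : (fun x => J (φ (τ x) x)) =ᶠ[𝓝 y] fun _ => c := hJe
      exact (hasFDerivAt_const c y).congr_of_eventuallyEq h1
    have hτw : τ' w = 0 := by
      have h1 := hJG.unique hJG0
      have h2 := congrArg (fun A : E →L[ℝ] ℝ => A w) h1
      simp only [_root_.zero_apply] at h2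
      rw [ContinuousLinearMap.comp_apply, hsplit, map_add, map_smul, hw, add_zero,
        smul_eq_mul] at h2
      exact (mul_eq_zero.mp h2).resolve_right hX
    have hfG : HasFDerivAt f (fderiv ℝ β y ∘L (Φ' ∘L (τ'.prod (ContinuousLinearMap.id ℝ E)))) y := by
      have h3 : HasFDerivAt β (fderiv ℝ β y) (φ (τ y) y) := by rw [hGy]; exact hβd
      exact (HasFDerivAt.comp (g := β) (f := fun x => φ (τ x) x) y h3 hG).congr_of_eventuallyEq hfe
    rw [hfG.fderiv, ContinuousLinearMap.comp_apply, hsplit, hτw, zero_smul, zero_add]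

end Pool.Agent.W501.KHCross
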